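import Pool.Agent.Lib.MP_b7d179_gt.L.Fin
import Pool.Agent.Lib.MP_b7d179_gt.G.Geo
import Pool.Agent.Lib.MP_b7d179_gt.M.MEx
import Pool.Agent.Lib.MP_b7d179_gt.F.HexB

/-! The limit set of the reflection group of a regular right-angled hexagon in a real plane of the
complex hyperbolic plane is ambient isotopic in the 3-sphere to the standard Menger curve. -/

namespace Pool.Agent.Results.MP_b7d179_gt.Unknotted

open Pool.Agent.Lib.MP_b7d179_gt Pool.Agent.Lib.MP_b7d179_gt.Stmt

theorem result : (∃ g, HexRefl g) ∧ ∀ g, HexRefl g → ∀ o ∈ ball2,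
    AmbIso (limOf (Subgroup.closure (Set.range g)) o) mengerS3 :=
  ⟨F.hex_ex, F.hex_of (F.general_of (F.final_of (Gm.geoEx L.lEx) L.lEx M.mEx))⟩

end Pool.Agent.Results.MP_b7d179_gt.Unknotted
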